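import Mathlib

/-!
# The union of a Hausdorff realization of a Gromov-Hausdorff geodesic is not unique

The geodesic consists of the triangles with side lengths `1 + t`, `10`, `10`.  In one realization
the apex stays at a fixed point, in the other one it moves along a segment of length `1/2`.
-/

set_option autoImplicit false

namespace Pool.Agent.Results.MP_457a5a_gt.MovingApex

open Set Metric GromovHausdorff

/-- A Gromov-Hausdorff geodesic: a curve in Mathlib's space `GHSpace` of isometry classes of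
non-empty compact metric spaces with the Gromov-Hausdorff distance. -/
def IsGHGeodesic (γ : unitInterval → GHSpace) : Prop :=
  ∀ s t : unitInterval, dist (γ s) (γ t) = |(s : ℝ) - t| * dist (γ 0) (γ 1)

/-- A Hausdorff realization of `γ` in `X`. -/
structure IsRealization (γ : unitInterval → GHSpace) (X : Type) [MetricSpace X]
    (φ : ∀ t, (γ t).Rep → X) : Prop where
  isometry : ∀ t, Isometry (φ t)
  hausdorff : ∀ s t, hausdorffDist (range (φ s)) (range (φ t)) = dist (γ s) (γ t)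

/-- The union of the images of a Hausdorff realization. -/
def hull {γ : unitInterval → GHSpace} {X : Type} (φ : ∀ t, (γ t).Rep → X) : Set X :=
  ⋃ t, range (φ t)

/-- The vertices of the triangle in the plane with the supremum metric. -/
noncomputable def pos (v t : ℝ) : Fin 3 → ℝ × ℝ := ![(-(1 + t) / 2, 0), ((1 + t) / 2, 0), (v, 10)]

/-- The distances in the triangle. -/
noncomputable def D (t : ℝ) : Fin 3 → Fin 3 → ℝ := ![![0, 1 + t, 10], ![1 + t, 0, 10], ![10, 10, 0]]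

lemma dist_pos_self (v t : ℝ) (hv : |v| ≤ 1) (ht : t ∈ Icc (0 : ℝ) 1) (i j : Fin 3) :
    dist (pos v t i) (pos v t j) = D t i j := by
  obtain ⟨h0, h1⟩ := ht
  rw [abs_le] at hv
  have e1 : |(-(1 + t) / 2) - (1 + t) / 2| = 1 + t := by
    rw [abs_of_nonpos (by linarith)]
    ring
  have e2 : |(1 + t) / 2 - (-(1 + t) / 2)| = 1 + t := by
    rw [abs_of_nonneg (by linarith)]
    ring
  have e3 : |(-(1 + t) / 2) - v| ≤ 10 := by
    rw [abs_le]
    constructor <;> linarith
  have e4 : |(1 + t) / 2 - v| ≤ 10 := by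
    rw [abs_le]
    constructor <;> linarith
  have e5 : |v - (-(1 + t) / 2)| ≤ 10 := by rwa [abs_sub_comm]
  have e6 : |v - (1 + t) / 2| ≤ 10 := by rwa [abs_sub_comm]
  have e7 : |(0 : ℝ) - 10| = 10 := by norm_num
  have e8 : |(10 : ℝ) - 0| = 10 := by norm_num
  have e9 : 0 ≤ 1 + t := by linarith
  fin_cases i <;> fin_cases j <;>
    simp only [pos, D, Prod.dist_eq, Real.dist_eq, Fin.zero_eta, Fin.mk_one, Fin.reduceFinMk,
      Matrix.cons_val_zero, Matrix.cons_val_one, Matrix.cons_val, sub_self, abs_zero, max_self,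
      e1, e2, e7, e8, max_eq_left e9, max_eq_right e3, max_eq_right e4, max_eq_right e5,
      max_eq_right e6]

lemma dist_pos_le (v w s t : ℝ) (h : |v - w| ≤ |s - t| / 2) (i : Fin 3) :
    dist (pos v s i) (pos w t i) ≤ |s - t| / 2 := by
  have h0 : 0 ≤ |s - t| / 2 := by positivity
  have e1 : |(-(1 + s) / 2) - (-(1 + t) / 2)| = |s - t| / 2 := by
    have : (-(1 + s) / 2) - (-(1 + t) / 2) = -((s - t) / 2) := by ring
    rw [this, abs_neg, abs_div, abs_two]
  have e2 : |((1 + s) / 2) - ((1 + t) / 2)| = |s - t| / 2 := by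
    have : ((1 + s) / 2) - ((1 + t) / 2) = ((s - t) / 2) := by ring
    rw [this, abs_div, abs_two]
  fin_cases i <;>
    simp only [pos, Prod.dist_eq, Real.dist_eq, Fin.zero_eta, Fin.mk_one, Fin.reduceFinMk,
      Matrix.cons_val_zero, Matrix.cons_val_one, Matrix.cons_val, sub_self, abs_zero, e1, e2] <;>
    exact max_le (by first | exact le_rfl | exact h) h0

/-- The triangle as a metric space. -/
structure Tri (t : unitInterval) where
  val : Fin 3

lemma pos_injective (t : unitInterval) : Function.Injective fun x : Tri t => pos 0 t x.val := by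
  rintro ⟨i⟩ ⟨j⟩ h
  have h1 : dist (pos 0 t i) (pos 0 t j) = 0 := by
    have h2 : pos 0 t i = pos 0 t j := h
    rw [h2, dist_self]
  rw [dist_pos_self 0 t (by simp) t.2] at h1
  have h3 : (0 : ℝ) < 1 + t := by
    have := t.2.1
    linarith
  fin_cases i <;> fin_cases j <;> simp [D] at h1 ⊢ <;> linarith

noncomputable instance (t : unitInterval) : MetricSpace (Tri t) :=
  MetricSpace.induced (fun x : Tri t => pos 0 t x.val) (pos_injective t) inferInstance

lemma dist_tri {t : unitInterval} (x y : Tri t) : dist x y = D t x.val y.val :=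
  dist_pos_self 0 t (by simp) t.2 _ _

instance (t : unitInterval) : Nonempty (Tri t) := ⟨⟨0⟩⟩

instance (t : unitInterval) : Finite (Tri t) :=
  Finite.of_injective (fun x : Tri t => x.val) fun x y h => by
    cases x
    cases y
    simp only at h
    rw [h]

instance (t : unitInterval) : CompactSpace (Tri t) := Finite.compactSpace

/-- The embedding of the triangle into the plane, with the apex at `(v, 10)`. -/
noncomputable def emb (v : ℝ) (t : unitInterval) (x : Tri t) : ℝ × ℝ := pos v t x.val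

lemma isometry_emb (v : ℝ) (hv : |v| ≤ 1) (t : unitInterval) : Isometry (emb v t) :=
  Isometry.of_dist_eq fun x y => (dist_pos_self v t hv t.2 _ _).trans (dist_tri x y).symm

lemma hausdorffDist_le (v w : ℝ) (s t : unitInterval) (h : |v - w| ≤ |(s : ℝ) - t| / 2) :
    hausdorffDist (range (emb v s)) (range (emb w t)) ≤ |(s : ℝ) - t| / 2 := by
  refine hausdorffDist_le_of_mem_dist (by positivity) ?_ ?_
  · rintro _ ⟨x, rfl⟩
    exact ⟨_, ⟨⟨x.val⟩, rfl⟩, dist_pos_le v w s t h x.val⟩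
  · rintro _ ⟨x, rfl⟩
    refine ⟨_, ⟨⟨x.val⟩, rfl⟩, ?_⟩
    rw [dist_comm]
    exact dist_pos_le v w s t h x.val

lemma le_ghDist (s t : unitInterval) : |(s : ℝ) - t| / 2 ≤ ghDist (Tri s) (Tri t) := by
  by_contra hlt
  push Not at hlt
  obtain ⟨Φ, Ψ, hΦ, hΨ, h⟩ := ghDist_eq_hausdorffDist (Tri s) (Tri t)
  rw [h] at hlt
  have hb : hausdorffEDist (range Φ) (range Ψ) ≠ ⊤ :=
    hausdorffEDist_ne_top_of_nonempty_of_bounded (range_nonempty _) (range_nonempty _)
      (finite_range Φ).isBounded (finite_range Ψ).isBounded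
  obtain ⟨_, ⟨x, rfl⟩, hx⟩ := exists_dist_lt_of_hausdorffDist_lt (mem_range_self (⟨0⟩ : Tri s))
    hlt hb
  obtain ⟨_, ⟨y, rfl⟩, hy⟩ := exists_dist_lt_of_hausdorffDist_lt (mem_range_self (⟨1⟩ : Tri s))
    hlt hb
  have h1 := dist_triangle4 (Φ ⟨0⟩) (Ψ x) (Ψ y) (Φ ⟨1⟩)
  have h2 := dist_triangle4 (Ψ x) (Φ ⟨0⟩) (Φ ⟨1⟩) (Ψ y)
  rw [dist_comm (Ψ y), hΦ.dist_eq, hΨ.dist_eq] at h1
  rw [dist_comm (Ψ x) (Φ ⟨0⟩), hΦ.dist_eq, hΨ.dist_eq] at h2
  have h3 : dist (⟨0⟩ : Tri s) ⟨1⟩ = 1 + s := by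
    rw [dist_tri]
    simp [D]
  rw [h3] at h1 h2
  have hs := s.2
  have ht := t.2
  have habs : |(s : ℝ) - t| ≤ 1 := by
    rw [abs_le]
    constructor <;> linarith [hs.1, hs.2, ht.1, ht.2]
  have h4 : dist x y = 0 ∨ dist x y = 1 + t ∨ dist x y = 10 := by
    rw [dist_tri]
    rcases x with ⟨x⟩
    rcases y with ⟨y⟩
    fin_cases x <;> fin_cases y <;> simp [D]
  rcases h4 with h4 | h4 | h4
  · rw [h4] at h1
    linarith [hs.1]
  · rw [h4] at h1 h2
    have h5 : |(s : ℝ) - t| < |(s : ℝ) - t| := by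
      rw [abs_lt]
      constructor <;> linarith
    exact lt_irrefl _ h5
  · rw [h4] at h2
    linarith [hs.2]

lemma ghDist_eq (s t : unitInterval) : ghDist (Tri s) (Tri t) = |(s : ℝ) - t| / 2 :=
  le_antisymm ((ghDist_le_hausdorffDist (isometry_emb 0 (by simp) s)
    (isometry_emb 0 (by simp) t)).trans (hausdorffDist_le 0 0 s t (by
      rw [sub_self, abs_zero]
      positivity))) (le_ghDist s t)

lemma hausdorffDist_eq (v w : ℝ) (s t : unitInterval) (hv : |v| ≤ 1) (hw : |w| ≤ 1)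
    (h : |v - w| ≤ |(s : ℝ) - t| / 2) :
    hausdorffDist (range (emb v s)) (range (emb w t)) = |(s : ℝ) - t| / 2 := by
  refine le_antisymm (hausdorffDist_le v w s t h) ?_
  rw [← ghDist_eq]
  exact ghDist_le_hausdorffDist (isometry_emb v hv s) (isometry_emb w hw t)

/-- The geodesic. -/
noncomputable def γ (t : unitInterval) : GHSpace := toGHSpace (Tri t)

lemma dist_γ (s t : unitInterval) : dist (γ s) (γ t) = |(s : ℝ) - t| / 2 := ghDist_eq s t

/-- An isometry of the representative of the class of the triangle with the triangle. -/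
noncomputable def iso (t : unitInterval) : (γ t).Rep ≃ᵢ Tri t :=
  (toGHSpace_eq_toGHSpace_iff_isometryEquiv.1 (GHSpace.toGHSpace_rep (γ t))).some

/-- The compact box containing the realizations. -/
abbrev Box (h : ℝ) : Type := Icc ((-1, 0) : ℝ × ℝ) (1, h)

lemma emb_mem (v : ℝ) (hv : |v| ≤ 1) (h : ℝ) (hh : 10 ≤ h) (t : unitInterval) (x : Tri t) :
    emb v t x ∈ Icc ((-1, 0) : ℝ × ℝ) (1, h) := by
  have h0 := t.2.1
  have h1 := t.2.2
  rw [abs_le] at hv
  obtain ⟨i⟩ := x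
  rw [emb]
  fin_cases i <;> simp only [pos, Fin.zero_eta, Fin.mk_one, Fin.reduceFinMk,
    Matrix.cons_val_zero, Matrix.cons_val_one, Matrix.cons_val] <;>
    refine ⟨Prod.mk_le_mk.2 ⟨?_, ?_⟩, Prod.mk_le_mk.2 ⟨?_, ?_⟩⟩ <;> linarith

/-- The realization with apex `(v t, 10)`. -/
noncomputable def real (v : ℝ → ℝ) (hv : ∀ t ∈ Icc (0 : ℝ) 1, |v t| ≤ 1) (h : ℝ) (hh : 10 ≤ h)
    (t : unitInterval) (x : (γ t).Rep) : Box h :=
  ⟨emb (v t) t (iso t x), emb_mem _ (hv t t.2) h hh t _⟩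

lemma hausdorffDist_image_val {h : ℝ} (A B : Set (Box h)) :
    hausdorffDist A B = hausdorffDist (Subtype.val '' A) (Subtype.val '' B) :=
  (hausdorffDist_image isometry_subtype_coe).symm

lemma isRealization (v : ℝ → ℝ) (hv : ∀ t ∈ Icc (0 : ℝ) 1, |v t| ≤ 1) (h : ℝ) (hh : 10 ≤ h)
    (hvv : ∀ s t : ℝ, |v s - v t| ≤ |s - t| / 2) :
    IsRealization γ (Box h) (real v hv h hh) where
  isometry t := Isometry.of_dist_eq fun x y =>
    ((isometry_emb (v t) (hv t t.2) t).dist_eq _ _).trans ((iso t).dist_eq _ _)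
  hausdorff s t := by
    have h1 : ∀ t : unitInterval, Subtype.val '' range (real v hv h hh t) =
        range (emb (v t) t) := by
      intro t
      rw [← range_comp]
      exact (iso t).surjective.range_comp (emb (v t) t)
    rw [hausdorffDist_image_val, h1, h1, dist_γ]
    exact hausdorffDist_eq _ _ s t (hv s s.2) (hv t t.2) (hvv s t)

lemma mem_hull {v : ℝ → ℝ} {hv : ∀ t ∈ Icc (0 : ℝ) 1, |v t| ≤ 1} {h : ℝ} {hh : 10 ≤ h}
    (x : Box h) : x ∈ hull (real v hv h hh) ↔ ∃ (t : unitInterval) (i : Fin 3),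
      pos (v t) t i = x.1 := by
  rw [hull, mem_iUnion]
  constructor
  · rintro ⟨t, y, rfl⟩
    exact ⟨t, (iso t y).val, rfl⟩
  · rintro ⟨t, i, hi⟩
    refine ⟨t, (iso t).symm ⟨i⟩, Subtype.ext ?_⟩
    change emb (v t) t (iso t ((iso t).symm ⟨i⟩)) = x.1
    rw [(iso t).apply_symm_apply]
    exact hi

/-- There are a (non-constant) Gromov-Hausdorff geodesic and Hausdorff realizations of it in two
non-isometric compact metric spaces, such that the unions of the images are not isometric. -/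
theorem result : ∃ γ : unitInterval → GHSpace, IsGHGeodesic γ ∧ 0 < dist (γ 0) (γ 1) ∧
    ∃ (X Y : Type) (_ : MetricSpace X) (_ : MetricSpace Y), CompactSpace X ∧ CompactSpace Y ∧
      Nonempty X ∧ Nonempty Y ∧ IsEmpty (X ≃ᵢ Y) ∧
      ∃ (φ : ∀ t, (γ t).Rep → X) (ψ : ∀ t, (γ t).Rep → Y), IsRealization γ X φ ∧
        IsRealization γ Y ψ ∧ IsEmpty (hull φ ≃ᵢ hull ψ) := by
  have hv1 : ∀ t ∈ Icc (0 : ℝ) 1, |(fun _ : ℝ => (0 : ℝ)) t| ≤ 1 := fun t _ => by simp
  have hv2 : ∀ t ∈ Icc (0 : ℝ) 1, |(fun t : ℝ => t / 2) t| ≤ 1 := fun t ht => by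
    simp only
    rw [abs_le]
    constructor <;> linarith [ht.1, ht.2]
  refine ⟨γ, fun s t => ?_, ?_, Box 10, Box 11, inferInstance, inferInstance,
    isCompact_iff_compactSpace.1 isCompact_Icc, isCompact_iff_compactSpace.1 isCompact_Icc,
    ⟨⟨(0, 0), ?_⟩⟩, ⟨⟨(0, 0), ?_⟩⟩, ⟨fun f => ?_⟩,
    real (fun _ => 0) hv1 10 le_rfl, real (fun t => t / 2) hv2 11 (by norm_num),
    isRealization _ _ _ _ fun s t => ?_, isRealization _ _ _ _ fun s t => ?_, ⟨fun f => ?_⟩⟩
  · rw [dist_γ, dist_γ]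
    simp
    ring
  · rw [dist_γ]
    simp
  · exact ⟨Prod.mk_le_mk.2 ⟨by norm_num, by norm_num⟩, Prod.mk_le_mk.2 ⟨by norm_num, by norm_num⟩⟩
  · exact ⟨Prod.mk_le_mk.2 ⟨by norm_num, by norm_num⟩, Prod.mk_le_mk.2 ⟨by norm_num, by norm_num⟩⟩
  · -- the boxes are not isometric
    have a0 : ((0, 0) : ℝ × ℝ) ∈ Icc ((-1, 0) : ℝ × ℝ) (1, 11) :=
      ⟨Prod.mk_le_mk.2 ⟨by norm_num, by norm_num⟩, Prod.mk_le_mk.2 ⟨by norm_num, by norm_num⟩⟩
    have a1 : ((0, 11) : ℝ × ℝ) ∈ Icc ((-1, 0) : ℝ × ℝ) (1, 11) :=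
      ⟨Prod.mk_le_mk.2 ⟨by norm_num, by norm_num⟩, Prod.mk_le_mk.2 ⟨by norm_num, by norm_num⟩⟩
    have h1 : dist (f.symm ⟨_, a0⟩) (f.symm ⟨_, a1⟩) = 11 := by
      rw [f.symm.dist_eq]
      change dist ((0, 0) : ℝ × ℝ) (0, 11) = 11
      rw [Prod.dist_eq, Real.dist_eq, Real.dist_eq]
      norm_num
    have h2 : ∀ x y : Box 10, dist x y ≤ 10 := by
      rintro ⟨⟨x1, x2⟩, hx⟩ ⟨⟨y1, y2⟩, hy⟩
      change dist ((x1, x2) : ℝ × ℝ) (y1, y2) ≤ 10
      obtain ⟨hx1, hx2⟩ := hx
      obtain ⟨hy1, hy2⟩ := hy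
      rw [Prod.mk_le_mk] at hx1 hx2 hy1 hy2
      rw [Prod.dist_eq, Real.dist_eq, Real.dist_eq]
      refine max_le ?_ ?_
      · rw [abs_le]
        constructor <;> simp only <;> linarith [hx1.1, hx2.1, hy1.1, hy2.1]
      · rw [abs_le]
        constructor <;> simp only <;> linarith [hx1.2, hx2.2, hy1.2, hy2.2]
    linarith [h2 (f.symm ⟨_, a0⟩) (f.symm ⟨_, a1⟩)]
  · simp only [sub_self, abs_zero]
    positivity
  · rw [← sub_div, abs_div, abs_two]
  · -- the unions are not isometric: the first one has an isolated apex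
    have a0 : ((0, 10) : ℝ × ℝ) ∈ Icc ((-1, 0) : ℝ × ℝ) (1, 10) :=
      ⟨Prod.mk_le_mk.2 ⟨by norm_num, by norm_num⟩, Prod.mk_le_mk.2 ⟨by norm_num, by norm_num⟩⟩
    let p : hull (real (fun _ => 0) hv1 10 le_rfl) := ⟨⟨(0, 10), a0⟩, (mem_hull _).2 ⟨0, 2, rfl⟩⟩
    have hp : ∀ x : hull (real (fun _ => 0) hv1 10 le_rfl), x ≠ p → 10 ≤ dist x p := by
      intro x hx
      obtain ⟨t, i, hi⟩ := (mem_hull _).1 x.2
      have h1 : dist x p = dist (pos 0 t i) (pos 0 t 2) := by
        rw [hi]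
        rfl
      have h2 : i ≠ 2 := by
        rintro rfl
        exact hx (Subtype.ext (Subtype.ext hi.symm))
      rw [h1, dist_pos_self 0 t (by simp) t.2]
      fin_cases i
      · simp [D]
      · simp [D]
      · exact absurd rfl h2
    have hq : ∀ y : hull (real (fun t => t / 2) hv2 11 (by norm_num)),
        ∃ z : hull (real (fun t => t / 2) hv2 11 (by norm_num)), z ≠ y ∧ dist z y < 10 := by
      intro y
      obtain ⟨t, i, hi⟩ := (mem_hull _).1 y.2
      -- move the parameter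
      obtain ⟨s, hs⟩ : ∃ s : unitInterval, s ≠ t := exists_ne t
      have hs' : (s : ℝ) ≠ t := fun h => hs (Subtype.ext h)
      have hmem : pos (s / 2) s i ∈ Icc ((-1, 0) : ℝ × ℝ) (1, 11) :=
        emb_mem (s / 2) (hv2 s s.2) 11 (by norm_num) s ⟨i⟩
      refine ⟨⟨⟨pos (s / 2) s i, hmem⟩, (mem_hull _).2 ⟨s, i, rfl⟩⟩, ?_, ?_⟩
      · intro h
        have h1 : pos (s / 2) s i = y.1.1 := congrArg (fun z => z.1.1) h
        rw [← hi] at h1
        have h2 := congrArg Prod.fst h1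
        fin_cases i <;> simp [pos] at h2 <;> exact hs' (by linarith)
      · change dist (pos (s / 2) s i) y.1.1 < 10
        rw [← hi]
        refine (dist_pos_le (s / 2) (t / 2) s t ?_ i).trans_lt ?_
        · rw [← sub_div, abs_div, abs_two]
        · have : |(s : ℝ) - t| ≤ 1 := by
            rw [abs_le]
            constructor <;> linarith [s.2.1, s.2.2, t.2.1, t.2.2]
          linarith
    obtain ⟨z, hz, hz'⟩ := hq (f p)
    have h1 : f.symm z ≠ p := fun h => hz (by rw [← h, f.apply_symm_apply])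
    have h2 := hp _ h1
    rw [← f.dist_eq, f.apply_symm_apply] at h2
    linarith

end Pool.Agent.Results.MP_457a5a_gt.MovingApex
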